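import Pool.Agent.Helper17.SLD.Goals
import Pool.Agent.Helper94.SLC.NV
import Pool.Agent.Helper8.SL.GA2

/-!
# Project SLD (MP_fc6b1e_nt), packet LOW: Dirichlet, lower bound
-/

namespace Pool.Agent.Helper17.SLD.PkLOW

open Pool.Agent.Helper42.SLC Pool.Agent.Helper17.SL Pool.Agent.Helper94.SLC
open Pool.Agent.Helper51.SigLeo Pool.Agent.Helper51.SixExp NumberField Module

set_option linter.unusedSectionVars false

universe u v

section

variable {M : Type u} [Field M] {N : Type v} [Field N] [NumberField N] [Algebra M N]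

theorem restrict_comp (ρ : N →+* ℂ) (g : N ≃ₐ[M] N) :
    (ρ.comp (g : N →+* N)).comp (algebraMap M N) = ρ.comp (algebraMap M N) := by
  ext x
  simp [RingHom.comp_apply]

theorem mk_restrict (φ ψ : N →+* ℂ) (e : InfinitePlace.mk φ = InfinitePlace.mk ψ) :
    InfinitePlace.mk (φ.comp (algebraMap M N)) = InfinitePlace.mk (ψ.comp (algebraMap M N)) := by
  rw [InfinitePlace.mk_eq_iff] at e ⊢
  rcases e with e | e
  · left; rw [e]
  · right; rw [← e, ComplexEmbedding.conjugate_comp]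

theorem mk_ne' (φ ψ : N →+* ℂ) (g h : N ≃ₐ[M] N)
    (hne : InfinitePlace.mk (φ.comp (algebraMap M N)) ≠
      InfinitePlace.mk (ψ.comp (algebraMap M N))) :
    InfinitePlace.mk (φ.comp (g : N →+* N)) ≠ InfinitePlace.mk (ψ.comp (h : N →+* N)) := by
  intro e
  have := mk_restrict (M := M) _ _ e
  rw [restrict_comp, restrict_comp] at this
  exact hne this

end

theorem thm : S_LOW.{u, v} := by
  classical
  intro M _ N _ _ _ _ θ n ρ hθ hne hc x hcon
  let pl : Fin n → (N ≃ₐ[M] N) → InfinitePlace N :=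
    fun i g ↦ InfinitePlace.mk ((ρ i).comp (g : N →+* N))
  let c : InfinitePlace N → ℂ := fun w ↦ ((w.mult : ℂ))⁻¹ *
    ∑ i, ∑ g : N ≃ₐ[M] N, if pl i g = w then x i * ((θ g⁻¹ : ℂˣ) : ℂ) else 0
  have hm0 : ∀ w : InfinitePlace N, (w.mult : ℂ) ≠ 0 := fun w ↦ by
    exact_mod_cast (InfinitePlace.mult_pos (w := w)).ne'
  have hrel : ∀ u : (𝓞 N)ˣ, ∑ w, c w * ((w.mult * Real.log (w (u : N)) : ℝ) : ℂ) = 0 := by
    intro u
    rw [← hcon (Additive.ofMul u)]
    have e1 : ∀ w : InfinitePlace N, c w * ((w.mult * Real.log (w (u : N)) : ℝ) : ℂ) =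
        ∑ i, ∑ g : N ≃ₐ[M] N, if pl i g = w then
          x i * ((θ g⁻¹ : ℂˣ) : ℂ) * ((Real.log (w (u : N)) : ℝ) : ℂ) else 0 := by
      intro w
      simp only [c]
      rw [Complex.ofReal_mul, Complex.ofReal_natCast]
      have : ((w.mult : ℂ))⁻¹ * (∑ i, ∑ g : N ≃ₐ[M] N,
            if pl i g = w then x i * ((θ g⁻¹ : ℂˣ) : ℂ) else 0) *
          ((w.mult : ℂ) * ((Real.log (w (u : N)) : ℝ) : ℂ)) =
          (∑ i, ∑ g : N ≃ₐ[M] N, if pl i g = w then x i * ((θ g⁻¹ : ℂˣ) : ℂ) else 0) *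
            ((Real.log (w (u : N)) : ℝ) : ℂ) := by
        have := hm0 w
        field_simp
      rw [this, Finset.sum_mul]
      refine Finset.sum_congr rfl fun i _ ↦ ?_
      rw [Finset.sum_mul]
      refine Finset.sum_congr rfl fun g _ ↦ ?_
      rw [ite_mul, zero_mul]
    rw [Finset.sum_congr rfl fun w _ ↦ e1 w, Finset.sum_comm]
    refine Finset.sum_congr rfl fun i _ ↦ ?_
    rw [Finset.sum_comm]
    unfold tw
    rw [Finset.mul_sum]
    refine Finset.sum_congr rfl fun g _ ↦ ?_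
    rw [Finset.sum_ite_eq Finset.univ (pl i g), if_pos (Finset.mem_univ _), mul_assoc]
    rfl
  have hconst := fun w w' ↦ PkGA2.cplx_rel c hrel w w'
  -- the value of `θ` on a fibre
  have hfib : ∀ i g g₀, pl i g = pl i g₀ → θ g⁻¹ = θ g₀⁻¹ := by
    intro i g g₀ h
    rcases InfinitePlace.mk_eq_iff.mp h with h1 | h1
    · have : g = g₀ := by
        ext y
        apply (ρ i).injective
        exact RingHom.congr_fun h1 y
      rw [this]
    · have h2 : ComplexEmbedding.conjugate (ρ i) =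
          (ρ i).comp ((g₀ * g⁻¹ : N ≃ₐ[M] N) : N →+* N) := by
        have h3 := congrArg (fun φ : N →+* ℂ ↦ φ.comp ((g⁻¹ : N ≃ₐ[M] N) : N →+* N)) h1
        rw [ComplexEmbedding.conjugate_comp, comp_comp] at h3
        have h4 : ((ComplexEmbedding.conjugate (ρ i)).comp (g : N →+* N)).comp
            ((g⁻¹ : N ≃ₐ[M] N) : N →+* N) = ComplexEmbedding.conjugate (ρ i) := by
          rw [comp_comp, mul_inv_cancel]
          rfl
        rw [← h4]
        exact h3
      have h3 := hc i _ h2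
      rw [map_mul] at h3
      rw [map_inv, map_inv]
      rw [map_inv] at h3
      rw [mul_inv_eq_one.mp h3]
  have hij : ∀ i j g h, pl i g = pl j h → i = j := by
    intro i j g h e
    by_contra hne'
    exact mk_ne' (ρ i) (ρ j) g h (hne i j hne') e
  let m : Fin n → ℕ := fun i ↦ (Finset.univ.filter fun g : N ≃ₐ[M] N ↦ pl i g = pl i 1).card
  have hm : ∀ i, m i ≠ 0 := by
    intro i
    apply (Finset.card_pos.mpr ⟨1, ?_⟩).ne'
    simp
  have hcard : ∀ i g₀, (Finset.univ.filter fun g : N ≃ₐ[M] N ↦ pl i g = pl i g₀).card = m i := by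
    intro i g₀
    symm
    apply Finset.card_bij (fun g _ ↦ g * g₀)
    · intro g hg
      rw [Finset.mem_filter] at hg ⊢
      refine ⟨Finset.mem_univ _, ?_⟩
      exact mk_comp_eq _ _ g₀ hg.2
    · intro g _ g' _ h
      exact mul_right_cancel h
    · intro g hg
      rw [Finset.mem_filter] at hg
      refine ⟨g * g₀⁻¹, ?_, by rw [inv_mul_cancel_right]⟩
      rw [Finset.mem_filter]
      refine ⟨Finset.mem_univ _, ?_⟩
      have h1 := mk_comp_eq _ _ g₀⁻¹ hg.2
      rw [comp_comp, comp_comp, mul_inv_cancel] at h1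
      exact h1
  have hval : ∀ i g₀, c (pl i g₀) =
      (((pl i 1).mult : ℂ))⁻¹ * (m i * (x i * ((θ g₀⁻¹ : ℂˣ) : ℂ))) := by
    intro i g₀
    simp only [c]
    have h1 : (pl i g₀).mult = (pl i 1).mult := by
      have h2 := mult_comp (ρ i) g₀
      have h3 := mult_comp (ρ i) (1 : N ≃ₐ[M] N)
      exact h2.trans h3.symm
    rw [h1]
    congr 1
    rw [Finset.sum_eq_single i]
    · rw [← Finset.sum_filter, Finset.sum_congr rfl (g := fun _ ↦ x i * ((θ g₀⁻¹ : ℂˣ) : ℂ)),
        Finset.sum_const, hcard, nsmul_eq_mul]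
      intro g hg
      rw [Finset.mem_filter] at hg
      rw [hfib i g g₀ hg.2]
    · intro j _ hj
      refine Finset.sum_eq_zero fun g _ ↦ ?_
      rw [if_neg]
      intro e
      exact hj (hij _ _ _ _ e)
    · intro h
      exact absurd (Finset.mem_univ _) h
  funext i
  by_contra hxi
  apply hθ
  ext g
  have h1 := hconst (pl i g⁻¹) (pl i 1)
  rw [hval, hval, inv_inv, inv_one, map_one] at h1
  have h2 := mul_left_cancel₀ (inv_ne_zero (hm0 (pl i 1))) h1
  have h3 := mul_left_cancel₀ (Nat.cast_ne_zero.mpr (hm i)) h2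
  have h4 := mul_left_cancel₀ hxi h3
  rw [h4, MonoidHom.one_apply]

end Pool.Agent.Helper17.SLD.PkLOW
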